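import Pool.Agent.TH694.GP.AlgDefs

/-!
# Globally rigid pinning, P1: the algorithm runs in polynomial time

The four running times of C2, C3, C4, C5 are collected in the structure `Asm`.
-/

set_option autoImplicit false

namespace Pool.Agent.TH645.GP

open Pool.Agent Pool.Agent.NPC Pool.Agent.H598R2.Cnt Pool.Agent.H632R2.Cogirth
  Pool.Agent.H442R3.MPar Pool.Agent.TH694.GP

/-- the running times proved in C2, C3, C4, C5 -/
structure Asm : Prop where
  basL : ∀ {α : Type} [TEnc α] {E : α → List (ℕ × ℕ)}, NPC.Poly E →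
    NPC.Poly (fun a => basL (E a))
  bodL : ∀ {α : Type} [TEnc α] {E : α → List (ℕ × ℕ)}, NPC.Poly E →
    NPC.Poly (fun a => bodL (E a))
  nuV : ∀ {α : Type} [TEnc α] {L : α → List (List ℕ)} {W : α → List ℕ}, NPC.Poly L →
    NPC.Poly W → NPC.Poly (fun a => nuV (L a) (W a))
  cands : ∀ {α : Type} [TEnc α] {U : α → List ℕ} {E : α → List (ℕ × ℕ)}, NPC.Poly U →
    NPC.Poly E → NPC.Poly (fun a => cands (U a) (E a))

variable {α : Type} [TEnc α] (H : Asm)

theorem poly_take1 {β : Type} [TEnc β] {l : α → List β} (hl : NPC.Poly l) :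
    NPC.Poly (fun a => (l a).take 1) := by
  refine (NPC.Poly.listCases (g := fun _ => ([] : List β)) (h := fun _ b _ => [b]) hl
    (NPC.Poly.const _) (NPC.Poly.cons (NPC.Poly.fst (NPC.Poly.snd NPC.Poly.id))
      (NPC.Poly.const _))).congr fun a => ?_
  cases l a <;> simp

include H

theorem poly_okX {L : α → List (List ℕ)} {F X : α → List ℕ} (hL : NPC.Poly L)
    (hF : NPC.Poly F) (hX : NPC.Poly X) : NPC.Poly (fun a => okX (L a) (F a) (X a)) := by
  unfold okX
  refine NPC.Poly.and (NPC.Poly.all (p := fun a x => !decide (x ∈ F a)) hX ?_)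
    (NPC.Poly.dec_eq (H.nuV hL hX) (NPC.Poly.length hX))
  exact NPC.Poly.not (NPC.Poly.dec_mem (NPC.Poly.snd NPC.Poly.id)
    (hF.comp (NPC.Poly.fst NPC.Poly.id)))

theorem poly_stepF {L C : α → List (List ℕ)} {F : α → List ℕ} (hL : NPC.Poly L)
    (hC : NPC.Poly C) (hF : NPC.Poly F) : NPC.Poly (fun a => stepF (L a) (C a) (F a)) := by
  have h1 : NPC.Poly (fun a => (C a).filter (fun X => okX (L a) (F a) X)) :=
    NPC.Poly.filter (p := fun a X => okX (L a) (F a) X) hC
      (poly_okX H (hL.comp (NPC.Poly.fst NPC.Poly.id)) (hF.comp (NPC.Poly.fst NPC.Poly.id))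
        (NPC.Poly.snd NPC.Poly.id))
  have h2 : NPC.Poly (fun a => ((C a).filter (fun X => okX (L a) (F a) X)).filter (fun X =>
      ((C a).filter (fun X => okX (L a) (F a) X)).all
        (fun Y => decide (X.length ≤ Y.length)))) := by
    refine NPC.Poly.filter (p := fun a X => ((C a).filter (fun X => okX (L a) (F a) X)).all
        (fun Y => decide (X.length ≤ Y.length))) h1 ?_
    refine NPC.Poly.all (l := fun q : α × List ℕ =>
      (C q.1).filter (fun X => okX (L q.1) (F q.1) X))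
      (p := fun q Y => decide (q.2.length ≤ Y.length)) (h1.comp (NPC.Poly.fst NPC.Poly.id)) ?_
    exact NPC.Poly.decide_le (NPC.Poly.length (NPC.Poly.snd (NPC.Poly.fst NPC.Poly.id)))
      (NPC.Poly.length (NPC.Poly.snd NPC.Poly.id))
  refine (NPC.Poly.optCases (h := fun a X => X.take 1 ++ F a) (NPC.Poly.head? h2) hF ?_).congr
    fun a => ?_
  · exact NPC.Poly.append (poly_take1 (NPC.Poly.snd NPC.Poly.id))
      (hF.comp (NPC.Poly.fst NPC.Poly.id))
  · unfold stepF
    cases (((C a).filter (fun X => okX (L a) (F a) X)).filter (fun X =>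
      ((C a).filter (fun X => okX (L a) (F a) X)).all
        (fun Y => decide (X.length ≤ Y.length)))).head? <;> rfl

omit H in
theorem stepF_iter (L C : List (List ℕ)) (k : ℕ) :
    ((stepF L C)^[k] []).length ≤ k ∧ ∀ x ∈ (stepF L C)^[k] [], ∃ X ∈ C, x ∈ X := by
  induction k with
  | zero => simp
  | succ k ih =>
    rw [Function.iterate_succ_apply']
    set F := (stepF L C)^[k] [] with hF
    unfold stepF
    split
    · exact ⟨ih.1.trans (Nat.le_succ k), ih.2⟩
    · rename_i X hX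
      have hXC : X ∈ C := by
        have := List.mem_of_mem_head? (Option.mem_def.mpr hX)
        exact (List.mem_filter.mp (List.mem_filter.mp this).1).1
      constructor
      · have h1 : (X.take 1).length ≤ 1 := by simp
        rw [List.length_append]
        omega
      · intro x hx
        rcases List.mem_append.mp hx with h | h
        · exact ⟨X, hXC, List.mem_of_mem_take h⟩
        · exact ih.2 x h

theorem poly_finF {U : α → List ℕ} {L C : α → List (List ℕ)} (hU : NPC.Poly U)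
    (hL : NPC.Poly L) (hC : NPC.Poly C) : NPC.Poly (fun a => finF (U a) (L a) (C a)) := by
  obtain ⟨rU, hrU⟩ := hU.sz_le
  obtain ⟨rC, hrC⟩ := hC.sz_le
  unfold finF
  refine NPC.Poly.iterLen (s := fun _ => ([] : List ℕ)) (F := fun a F => stepF (L a) (C a) F) hU
    (NPC.Poly.const _) (poly_stepF H (hL.comp (NPC.Poly.fst NPC.Poly.id))
      (hC.comp (NPC.Poly.fst NPC.Poly.id)) (NPC.Poly.snd NPC.Poly.id))
    (rU * (rC + 1) + 1) ?_
  intro a k hk
  obtain ⟨h1, h2⟩ := stepF_iter (L a) (C a) k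
  have h3 := sz_le_length_mul ((stepF (L a) (C a))^[k] []) (rC.eval (sz a)) (by
    intro x hx
    obtain ⟨X, hX, hxX⟩ := h2 x hx
    have e1 := sz_le_of_mem hX
    have e2 := sz_le_of_mem hxX
    have e3 := hrC a
    omega)
  have h4 := length_lt_sz (U a)
  have h5 := hrU a
  simp only [Polynomial.eval_add, Polynomial.eval_mul, Polynomial.eval_one]
  refine h3.trans (Nat.add_le_add_right (Nat.mul_le_mul_right _ ?_) 1)
  omega

theorem poly_bigOpt {U : α → List ℕ} {E : α → List (ℕ × ℕ)} (hU : NPC.Poly U)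
    (hE : NPC.Poly E) : NPC.Poly (fun a => bigOpt (U a) (E a)) := by
  unfold bigOpt
  have h1 : NPC.Poly (fun a => finF (U a) (bodL (E a)) (cands (U a) (E a))) :=
    poly_finF H hU (H.bodL hE) (H.cands hU hE)
  have h2 : NPC.Poly (fun a => (U a).filter (fun v =>
      !decide (v ∈ finF (U a) (bodL (E a)) (cands (U a) (E a))))) :=
    NPC.Poly.filter (p := fun a v => !decide (v ∈ finF (U a) (bodL (E a)) (cands (U a) (E a)))) hU
      (NPC.Poly.not (NPC.Poly.dec_mem (NPC.Poly.snd NPC.Poly.id)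
        (h1.comp (NPC.Poly.fst NPC.Poly.id))))
  exact NPC.Poly.max (NPC.Poly.const 4)
    (NPC.Poly.sub (NPC.Poly.length hU) (H.nuV (H.bodL hE) h2))

omit H in
theorem poly_allP {U : α → List ℕ} (hU : NPC.Poly U) : NPC.Poly (fun a => allP (U a)) := by
  unfold allP
  refine NPC.Poly.flatMap (F := fun a x => ((U a).filter (fun b => decide (x < b))).map
    (fun b => (x, b))) hU ?_
  refine NPC.Poly.map (l := fun p : α × ℕ => (U p.1).filter (fun b => decide (p.2 < b)))
    (F := fun p b => (p.2, b)) ?_ ?_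
  · refine NPC.Poly.filter (l := fun p : α × ℕ => U p.1) (p := fun p b => decide (p.2 < b))
      (hU.comp (NPC.Poly.fst NPC.Poly.id)) ?_
    exact NPC.Poly.decide_lt (NPC.Poly.snd (NPC.Poly.fst NPC.Poly.id))
      (NPC.Poly.snd NPC.Poly.id)
  · exact NPC.Poly.pair (NPC.Poly.snd (NPC.Poly.fst NPC.Poly.id)) (NPC.Poly.snd NPC.Poly.id)

omit H in
theorem poly_addK {U P : α → List ℕ} {E : α → List (ℕ × ℕ)} (hU : NPC.Poly U)
    (hE : NPC.Poly E) (hP : NPC.Poly P) : NPC.Poly (fun a => addK (U a) (E a) (P a)) := by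
  unfold addK
  refine NPC.Poly.filter (p := fun a e => decide (e ∈ E a) ||
    (decide (e.1 ∈ P a) && decide (e.2 ∈ P a))) (poly_allP hU) ?_
  have h1 : NPC.Poly (fun x : α × (ℕ × ℕ) => x.2) := NPC.Poly.snd NPC.Poly.id
  have h2 : NPC.Poly (fun x : α × (ℕ × ℕ) => P x.1) := hP.comp (NPC.Poly.fst NPC.Poly.id)
  exact NPC.Poly.or (NPC.Poly.dec_mem h1 (hE.comp (NPC.Poly.fst NPC.Poly.id)))
    (NPC.Poly.and (NPC.Poly.dec_mem (NPC.Poly.fst h1) h2) (NPC.Poly.dec_mem (NPC.Poly.snd h1) h2))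

theorem poly_grT {U : α → List ℕ} {E : α → List (ℕ × ℕ)} (hU : NPC.Poly U) (hE : NPC.Poly E) :
    NPC.Poly (fun a => grT (U a) (E a)) := by
  unfold grT
  have hlen := NPC.Poly.length hU
  refine NPC.Poly.ite (NPC.Poly.decide_le hlen (NPC.Poly.const 3)) ?_ ?_
  · exact NPC.Poly.all (p := fun a e => decide (e ∈ E a)) (poly_allP hU)
      (NPC.Poly.dec_mem (NPC.Poly.snd NPC.Poly.id) (hE.comp (NPC.Poly.fst NPC.Poly.id)))
  · refine NPC.Poly.and (NPC.Poly.isEmpty (H.cands hU hE)) (NPC.Poly.and ?_ ?_)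
    · exact NPC.Poly.dec_eq (NPC.Poly.add (NPC.Poly.length (H.basL hE)) (NPC.Poly.const 3))
        (NPC.Poly.mul (NPC.Poly.const 2) hlen)
    · refine NPC.Poly.all (p := fun a e => decide ((basL ((E a).filter
        (fun f => !decide (f = e)))).length + 3 = 2 * (U a).length)) hE ?_
      refine NPC.Poly.dec_eq (NPC.Poly.add (NPC.Poly.length (H.basL ?_)) (NPC.Poly.const 3))
        (NPC.Poly.mul (NPC.Poly.const 2) (hlen.comp (NPC.Poly.fst NPC.Poly.id)))
      refine NPC.Poly.filter (l := fun x : α × (ℕ × ℕ) => E x.1)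
        (p := fun x f => !decide (f = x.2)) (hE.comp (NPC.Poly.fst NPC.Poly.id)) ?_
      exact NPC.Poly.not (NPC.Poly.dec_eq (NPC.Poly.snd NPC.Poly.id)
        (NPC.Poly.snd (NPC.Poly.fst NPC.Poly.id)))

theorem poly_smallT {U : α → List ℕ} {E : α → List (ℕ × ℕ)} {k : α → ℕ} (hU : NPC.Poly U)
    (hE : NPC.Poly E) (hk : NPC.Poly k) :
    NPC.Poly (fun a => smallT (U a) (E a) (k a)) := by
  unfold smallT
  refine NPC.Poly.or (poly_grT H hU hE) (NPC.Poly.or (NPC.Poly.and
    (NPC.Poly.decide_le (NPC.Poly.const 2) hk) ?_) (NPC.Poly.and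
    (NPC.Poly.decide_le (NPC.Poly.const 3) hk) ?_))
  · refine NPC.Poly.any (p := fun a x => (U a).any (fun y =>
      grT (U a) (addK (U a) (E a) [x, y]))) hU ?_
    refine NPC.Poly.any (l := fun p : α × ℕ => U p.1) (p := fun p y =>
      grT (U p.1) (addK (U p.1) (E p.1) [p.2, y])) (hU.comp (NPC.Poly.fst NPC.Poly.id)) ?_
    have f1 : NPC.Poly (fun q : (α × ℕ) × ℕ => q.1.1) := NPC.Poly.fst (NPC.Poly.fst NPC.Poly.id)
    have f2 : NPC.Poly (fun q : (α × ℕ) × ℕ => q.1.2) := NPC.Poly.snd (NPC.Poly.fst NPC.Poly.id)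
    have f3 : NPC.Poly (fun q : (α × ℕ) × ℕ => q.2) := NPC.Poly.snd NPC.Poly.id
    exact poly_grT H (hU.comp f1) (poly_addK (hU.comp f1) (hE.comp f1)
      (NPC.Poly.cons f2 (NPC.Poly.cons f3 (NPC.Poly.const _))))
  · refine NPC.Poly.any (p := fun a x => (U a).any (fun y => (U a).any (fun z =>
      grT (U a) (addK (U a) (E a) [x, y, z])))) hU ?_
    refine NPC.Poly.any (l := fun p : α × ℕ => U p.1) (p := fun p y => (U p.1).any (fun z =>
      grT (U p.1) (addK (U p.1) (E p.1) [p.2, y, z]))) (hU.comp (NPC.Poly.fst NPC.Poly.id)) ?_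
    refine NPC.Poly.any (l := fun p : (α × ℕ) × ℕ => U p.1.1) (p := fun p z =>
      grT (U p.1.1) (addK (U p.1.1) (E p.1.1) [p.1.2, p.2, z]))
      (hU.comp (NPC.Poly.fst (NPC.Poly.fst NPC.Poly.id))) ?_
    have f0 : NPC.Poly (fun q : ((α × ℕ) × ℕ) × ℕ => q.1) := NPC.Poly.fst NPC.Poly.id
    have f1 : NPC.Poly (fun q : ((α × ℕ) × ℕ) × ℕ => q.1.1.1) :=
      NPC.Poly.fst (NPC.Poly.fst f0)
    have f2 : NPC.Poly (fun q : ((α × ℕ) × ℕ) × ℕ => q.1.1.2) :=
      NPC.Poly.snd (NPC.Poly.fst f0)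
    have f3 : NPC.Poly (fun q : ((α × ℕ) × ℕ) × ℕ => q.1.2) := NPC.Poly.snd f0
    have f4 : NPC.Poly (fun q : ((α × ℕ) × ℕ) × ℕ => q.2) := NPC.Poly.snd NPC.Poly.id
    exact poly_grT H (hU.comp f1) (poly_addK (hU.comp f1) (hE.comp f1)
      (NPC.Poly.cons f2 (NPC.Poly.cons f3 (NPC.Poly.cons f4 (NPC.Poly.const _)))))

omit H in
theorem poly_edgesM {M : α → List (List Bool)} (hM : NPC.Poly M) :
    NPC.Poly (fun a => edgesM (M a)) := by
  unfold edgesM
  refine NPC.Poly.filter (p := fun a e => ((M a).getD e.1 []).getD e.2 false)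
    (poly_allP (NPC.Poly.range_length hM)) ?_
  have h1 : NPC.Poly (fun x : α × (ℕ × ℕ) => x.2) := NPC.Poly.snd NPC.Poly.id
  exact NPC.Poly.getD (NPC.Poly.getD (hM.comp (NPC.Poly.fst NPC.Poly.id)) (NPC.Poly.fst h1)
    (NPC.Poly.const _)) (NPC.Poly.snd h1) (NPC.Poly.const _)

theorem poly_decT {M : α → List (List Bool)} {k : α → ℕ} (hM : NPC.Poly M)
    (hk : NPC.Poly k) : NPC.Poly (fun a => decT (M a) (k a)) := by
  unfold decT
  have hr := NPC.Poly.range_length hM
  have he := poly_edgesM hM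
  exact NPC.Poly.or (poly_smallT H hr he hk) (NPC.Poly.and
    (NPC.Poly.decide_le (NPC.Poly.const 4) (NPC.Poly.length hM))
    (NPC.Poly.decide_le (poly_bigOpt H hr he) hk))

end Pool.Agent.TH645.GP
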